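import Mathlib

/-!
# The polynomial construction behind the counterexample

`D k F` is the `k`-th iterated forward difference of `F : ℕ → ℝ`.
-/

open Finset Function

namespace Pool.Agent.Lib.MP_550623_an

/-- The `k`-th iterated forward difference of a real sequence. -/
noncomputable def D (k : ℕ) (F : ℕ → ℝ) : ℕ → ℝ := (fwdDiff 1)^[k] F

lemma D_zero (F : ℕ → ℝ) : D 0 F = F := rfl

lemma D_succ (k : ℕ) (F : ℕ → ℝ) : D (k + 1) F = D k (fwdDiff 1 F) := by
  simp [D, Function.iterate_succ_apply]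

lemma D_succ' (k : ℕ) (F : ℕ → ℝ) (s : ℕ) : D (k + 1) F s = D k F (s + 1) - D k F s := by
  simp [D, Function.iterate_succ_apply', fwdDiff]

lemma D_add_apply (k : ℕ) (F G : ℕ → ℝ) (s : ℕ) : D k (F + G) s = D k F s + D k G s := by
  simp [D]

lemma D_smul_apply (k : ℕ) (c : ℝ) (F : ℕ → ℝ) (s : ℕ) : D k (c • F) s = c * D k F s := by
  simp [D]

lemma D_zero_fun (k : ℕ) : D k (0 : ℕ → ℝ) = 0 := by
  induction k with
  | zero => rfl
  | succ k ih =>
    rw [D_succ]
    have : fwdDiff 1 (0 : ℕ → ℝ) = 0 := by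
      funext x; simp [fwdDiff]
    rw [this, ih]

lemma D_add (j k : ℕ) (F : ℕ → ℝ) : D (j + k) F = D j (D k F) := by
  simp [D, Function.iterate_add_apply]

lemma D_eq_zero_of_le {N k : ℕ} (h : N ≤ k) {F : ℕ → ℝ} (hF : D N F = 0) : D k F = 0 := by
  obtain ⟨j, rfl⟩ := Nat.exists_eq_add_of_le h
  rw [add_comm, D_add, hF, D_zero_fun]

lemma D_succ_const (k : ℕ) (c : ℝ) : D (k + 1) (fun _ => c) = 0 := by
  rw [D_succ]
  have : fwdDiff 1 (fun _ : ℕ => c) = 0 := by
    funext x; simp [fwdDiff]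
  rw [this, D_zero_fun]

lemma D_eq_sum (k : ℕ) (F : ℕ → ℝ) (s : ℕ) :
    D k F s = ∑ i ∈ range (k + 1), ((-1 : ℝ) ^ (k - i) * k.choose i) * F (s + i) := by
  have := fwdDiff_iter_eq_sum_shift (1 : ℕ) F k s
  simp only [D]
  rw [this]
  refine Finset.sum_congr rfl fun i _ => ?_
  simp [zsmul_eq_mul]

/-- Differences are bounded by `2 ^ k` times a bound on the values. -/
lemma abs_D_le {k : ℕ} {F : ℕ → ℝ} {s : ℕ} {δ : ℝ} (h : ∀ i ≤ k, |F (s + i)| ≤ δ) :
    |D k F s| ≤ 2 ^ k * δ := by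
  rw [D_eq_sum]
  calc |∑ i ∈ range (k + 1), ((-1 : ℝ) ^ (k - i) * k.choose i) * F (s + i)|
      ≤ ∑ i ∈ range (k + 1), |((-1 : ℝ) ^ (k - i) * k.choose i) * F (s + i)| :=
        Finset.abs_sum_le_sum_abs _ _
    _ ≤ ∑ i ∈ range (k + 1), (k.choose i : ℝ) * δ := by
        refine Finset.sum_le_sum fun i hi => ?_
        rw [abs_mul, abs_mul, abs_pow, abs_neg, abs_one, one_pow, one_mul, Nat.abs_cast]
        exact mul_le_mul_of_nonneg_left (h i (Nat.lt_succ_iff.mp (mem_range.mp hi)))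
          (Nat.cast_nonneg _)
    _ = 2 ^ k * δ := by
        rw [← Finset.sum_mul]
        congr 1
        have := Nat.sum_range_choose k
        exact_mod_cast this

/-- Newton's formula at `0`. -/
lemma newton (F : ℕ → ℝ) (n : ℕ) :
    F n = ∑ k ∈ range (n + 1), (n.choose k : ℝ) * D k F 0 := by
  have := shift_eq_sum_fwdDiff_iter (1 : ℕ) F n 0
  simp only [zero_add, smul_eq_mul, mul_one, nsmul_eq_mul] at this
  simpa [D] using this

/-- Evaluating polynomial differences along the naturals. -/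
lemma D_poly (Q : Polynomial ℝ) (c : ℝ) (k : ℕ) (hk : Q.natDegree < k) :
    D k (fun s : ℕ => Q.eval ((s : ℝ) * c)) = 0 := by
  funext s
  have h1 : (fwdDiff (1 : ℝ))^[k] (Q.comp (Polynomial.C c * Polynomial.X)).eval = 0 := by
    apply Polynomial.fwdDiff_iter_eq_zero_of_degree_lt
    refine lt_of_le_of_lt ?_ hk
    refine Polynomial.natDegree_comp_le.trans ?_
    have : (Polynomial.C c * Polynomial.X : Polynomial ℝ).natDegree ≤ 1 :=
      (Polynomial.natDegree_C_mul_le c _).trans Polynomial.natDegree_X_le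
    calc Q.natDegree * (Polynomial.C c * Polynomial.X : Polynomial ℝ).natDegree
        ≤ Q.natDegree * 1 := Nat.mul_le_mul_left _ this
      _ = Q.natDegree := mul_one _
  have h2 := congrFun h1 (s : ℝ)
  rw [fwdDiff_iter_eq_sum_shift] at h2
  rw [D_eq_sum]
  simp only [Pi.zero_apply] at h2 ⊢
  rw [← h2]
  refine Finset.sum_congr rfl fun i _ => ?_
  simp only [zsmul_eq_mul, nsmul_eq_mul, mul_one, Polynomial.eval_comp, Polynomial.eval_mul,
    Polynomial.eval_C, Polynomial.eval_X]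
  push_cast
  ring_nf

/-- The corrector: sequences of bounded degree going from `0` at `0` to `1` at `n`, all of whose
differences at `0` and at `n` are `O(n ^ (-(N+1)))`. -/
lemma corrector (N : ℕ) : ∃ (d : ℕ) (M : ℝ), 0 ≤ M ∧ 0 < d ∧ ∀ n : ℕ, d ≤ n →
    ∃ P : ℕ → ℝ, P 0 = 0 ∧ P n = 1 ∧ D d P = 0 ∧
      ∀ k, |D (k + 1) P 0| ≤ M / (n : ℝ) ^ (N + 1) ∧ |D (k + 1) P n| ≤ M / (n : ℝ) ^ (N + 1) := by
  have hcop : IsCoprime ((Polynomial.X : Polynomial ℝ) ^ (N + 1))
      ((1 - Polynomial.X : Polynomial ℝ) ^ (N + 1)) := by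
    apply IsCoprime.pow
    exact ⟨1, 1, by ring⟩
  obtain ⟨a, b, hab⟩ := hcop
  obtain ⟨A, hA⟩ := (isCompact_Icc (a := (0 : ℝ)) (b := 2)).exists_bound_of_continuousOn
    (f := fun x => a.eval x) a.continuous.continuousOn
  obtain ⟨B, hB⟩ := (isCompact_Icc (a := (0 : ℝ)) (b := 2)).exists_bound_of_continuousOn
    (f := fun x => b.eval x) b.continuous.continuousOn
  set Q : Polynomial ℝ := a * Polynomial.X ^ (N + 1) with hQ
  set d : ℕ := Q.natDegree + 1 with hd
  set A' : ℝ := max A B with hA'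
  have hA0 : 0 ≤ A' := by
    have h0 := hA 0 (by norm_num)
    exact (norm_nonneg _).trans (h0.trans (le_max_left _ _))
  refine ⟨d, 2 ^ d * (A' * (d : ℝ) ^ (N + 1)), by positivity, Nat.succ_pos _, ?_⟩
  intro n hn
  have hnpos : 0 < n := lt_of_lt_of_le (Nat.succ_pos _) hn
  have hnR : (0 : ℝ) < n := by exact_mod_cast hnpos
  set P : ℕ → ℝ := fun s => Q.eval ((s : ℝ) * (1 / n)) with hP
  have hdP : D d P = 0 := D_poly Q (1 / n) d (Nat.lt_succ_self _)
  have hval0 : ∀ i : ℕ, i ≤ d → |P (0 + i)| ≤ A' * (d : ℝ) ^ (N + 1) / (n : ℝ) ^ (N + 1) := by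
    intro i hi
    have hiR : (i : ℝ) ≤ d := by exact_mod_cast hi
    have hin : (i : ℝ) ≤ n := by exact_mod_cast hi.trans hn
    have hx0 : (0 : ℝ) ≤ (i : ℝ) * (1 / n) := by positivity
    have hx1 : (i : ℝ) * (1 / n) ≤ 2 := by
      rw [mul_one_div, div_le_iff₀ hnR]
      linarith
    have h1 := hA ((i : ℝ) * (1 / n)) ⟨hx0, hx1⟩
    simp only [hP, zero_add, hQ, Polynomial.eval_mul, Polynomial.eval_pow, Polynomial.eval_X]
    rw [abs_mul, abs_of_nonneg (pow_nonneg hx0 _)]
    rw [mul_div_assoc]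
    refine mul_le_mul (h1.trans (le_max_left _ _)) ?_ (pow_nonneg hx0 _) hA0
    rw [← div_pow]
    refine pow_le_pow_left₀ hx0 ?_ _
    rw [mul_one_div]
    exact div_le_div_of_nonneg_right hiR hnR.le
  set one' : ℕ → ℝ := fun _ => (-1 : ℝ) with hone
  have hvaln : ∀ i : ℕ, i ≤ d →
      |(P + one') (n + i)| ≤ A' * (d : ℝ) ^ (N + 1) / (n : ℝ) ^ (N + 1) := by
    intro i hi
    have hiR : (i : ℝ) ≤ d := by exact_mod_cast hi
    have hin : (i : ℝ) ≤ n := by exact_mod_cast hi.trans hn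
    set x : ℝ := ((n + i : ℕ) : ℝ) * (1 / n) with hx
    have hxeq : x = 1 + (i : ℝ) / n := by
      rw [hx]; push_cast; field_simp
    have hi0 : (0 : ℝ) ≤ (i : ℝ) / n := by positivity
    have hi1 : (i : ℝ) / n ≤ 1 := by
      rw [div_le_one hnR]; exact hin
    have hx0 : (0 : ℝ) ≤ x := by rw [hxeq]; linarith
    have hx1 : x ≤ 2 := by rw [hxeq]; linarith
    have h1 := hB x ⟨hx0, hx1⟩
    have hev := congrArg (fun p => Polynomial.eval x p) hab
    simp only [Polynomial.eval_add, Polynomial.eval_mul, Polynomial.eval_pow, Polynomial.eval_X,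
      Polynomial.eval_sub, Polynomial.eval_one] at hev
    have hPx : (P + one') (n + i) = - (b.eval x * (1 - x) ^ (N + 1)) := by
      have e1 : P (n + i) = Q.eval x := rfl
      rw [Pi.add_apply, e1, hone]
      linarith
    rw [hPx, abs_neg, abs_mul, abs_pow, mul_div_assoc]
    refine mul_le_mul (h1.trans (le_max_right _ _)) ?_ (by positivity) hA0
    rw [← div_pow]
    refine pow_le_pow_left₀ (abs_nonneg _) ?_ _
    have : 1 - x = -((i : ℝ) / n) := by rw [hxeq]; ring
    rw [this, abs_neg, abs_of_nonneg hi0]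
    exact div_le_div_of_nonneg_right hiR hnR.le
  have key : ∀ k, |D (k + 1) P 0| ≤ 2 ^ d * (A' * (d : ℝ) ^ (N + 1)) / (n : ℝ) ^ (N + 1) ∧
      |D (k + 1) P n| ≤ 2 ^ d * (A' * (d : ℝ) ^ (N + 1)) / (n : ℝ) ^ (N + 1) := by
    intro k
    have hnn : (0 : ℝ) ≤ A' * (d : ℝ) ^ (N + 1) / (n : ℝ) ^ (N + 1) := by positivity
    by_cases hk : k + 1 ≤ d
    · have e : (2 : ℝ) ^ (k + 1) ≤ 2 ^ d := pow_le_pow_right₀ (by norm_num) hk
      constructor
      · refine (abs_D_le (δ := A' * (d : ℝ) ^ (N + 1) / (n : ℝ) ^ (N + 1))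
          fun i hi => hval0 i (hi.trans hk)).trans ?_
        rw [mul_div_assoc (2 ^ d)]
        exact mul_le_mul_of_nonneg_right e hnn
      · have h2 : D (k + 1) (P + one') n = D (k + 1) P n := by
          rw [D_add_apply, hone, D_succ_const]; simp
        rw [← h2]
        refine (abs_D_le (δ := A' * (d : ℝ) ^ (N + 1) / (n : ℝ) ^ (N + 1))
          fun i hi => hvaln i (hi.trans hk)).trans ?_
        rw [mul_div_assoc (2 ^ d)]
        exact mul_le_mul_of_nonneg_right e hnn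
    · have hz : D (k + 1) P = 0 := D_eq_zero_of_le (by omega) hdP
      rw [hz]
      simp only [Pi.zero_apply, abs_zero]
      constructor <;> positivity
  refine ⟨P, ?_, ?_, hdP, key⟩
  · simp [hP, hQ]
  · have h1 : ((n : ℝ)) * (1 / n) = 1 := by field_simp
    have hev := congrArg (fun p => Polynomial.eval (1 : ℝ) p) hab
    simp only [Polynomial.eval_add, Polynomial.eval_mul, Polynomial.eval_pow,
      Polynomial.eval_sub, Polynomial.eval_X, Polynomial.eval_one, sub_self] at hev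
    have hz : (0 : ℝ) ^ (N + 1) = 0 := zero_pow (Nat.succ_ne_zero N)
    rw [hz, mul_zero, add_zero] at hev
    have : P n = Q.eval ((n : ℝ) * (1 / n)) := rfl
    rw [this, h1]
    exact hev

/-- `F` has degree `< N`, and all its differences at `0` and at `n` are at most `C`. -/
def Good (N C n : ℕ) (F : ℕ → ℝ) : Prop :=
  D N F = 0 ∧ ∀ k, |D k F 0| ≤ C ∧ |D k F n| ≤ C

/-- The step lemma. -/
lemma step (N C m : ℕ) : ∃ N' C' : ℕ, ∀ (n : ℕ) (F : ℕ → ℝ), Good N C n F →
    ∃ G : ℕ → ℝ, Good N' C' n G ∧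
      ∀ k, |D k F 0 - D (k + 1) G 0| ≤ 1 / ((m : ℝ) + 1) ∧
        |D k F n - D (k + 1) G n| ≤ 1 / ((m : ℝ) + 1) := by
  obtain ⟨d, M, hM, hd, hcor⟩ := corrector N
  -- threshold
  set K : ℝ := (C : ℝ) * (N * 2 ^ N) with hK
  have hK0 : 0 ≤ K := by positivity
  obtain ⟨n₀, hn₀⟩ := exists_nat_ge (K * M * ((m : ℝ) + 1))
  set n₁ : ℕ := max (max n₀ d) 1 with hn₁
  -- bound on the antidifference at `n`
  have anti : ∀ (n : ℕ) (F : ℕ → ℝ), Good N C n F → 1 ≤ n →
      |∑ i ∈ range n, F i| ≤ K * (n : ℝ) ^ N := by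
    intro n F hF hn
    set G₀ : ℕ → ℝ := fun s => ∑ i ∈ range s, F i with hG₀
    have hdiff : fwdDiff 1 G₀ = F := by
      funext s; simp [fwdDiff, hG₀, Finset.sum_range_succ]
    have hnew := newton G₀ n
    have hG00 : D 0 G₀ 0 = 0 := by simp [D_zero, hG₀]
    have hDs : ∀ k, D (k + 1) G₀ 0 = D k F 0 := by
      intro k; rw [D_succ, hdiff]
    rw [Finset.sum_range_succ'] at hnew
    simp only [hG00, mul_zero, add_zero, hDs] at hnew
    change |G₀ n| ≤ _
    rw [hnew]
    have hnR : (1 : ℝ) ≤ n := by exact_mod_cast hn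
    calc |∑ k ∈ range n, ((n.choose (k + 1) : ℕ) : ℝ) * D k F 0|
        ≤ ∑ k ∈ range n, |((n.choose (k + 1) : ℕ) : ℝ) * D k F 0| :=
          Finset.abs_sum_le_sum_abs _ _
      _ ≤ ∑ k ∈ range n, (if k < N then (n : ℝ) ^ N * C else 0) := by
          refine Finset.sum_le_sum fun k _ => ?_
          split_ifs with hk
          · rw [abs_mul, Nat.abs_cast]
            refine mul_le_mul ?_ (hF.2 k).1 (abs_nonneg _) (by positivity)
            calc ((n.choose (k + 1) : ℕ) : ℝ) ≤ ((n ^ (k + 1) : ℕ) : ℝ) := by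
                  exact_mod_cast Nat.choose_le_pow n (k + 1)
              _ = (n : ℝ) ^ (k + 1) := by push_cast; rfl
              _ ≤ (n : ℝ) ^ N := pow_le_pow_right₀ hnR hk
          · have : D k F = 0 := D_eq_zero_of_le (not_lt.mp hk) hF.1
            simp [this]
      _ ≤ ∑ k ∈ range N, (n : ℝ) ^ N * C := by
          rw [← Finset.sum_filter]
          refine Finset.sum_le_sum_of_subset_of_nonneg ?_ (fun _ _ _ => by positivity)
          intro k hk
          simp only [Finset.mem_filter, Finset.mem_range] at hk ⊢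
          exact hk.2
      _ = (C : ℝ) * N * (n : ℝ) ^ N := by
          rw [Finset.sum_const, Finset.card_range, nsmul_eq_mul]; ring
      _ ≤ K * (n : ℝ) ^ N := by
          rw [hK]
          have h2 : (1 : ℝ) ≤ 2 ^ N := one_le_pow₀ (by norm_num)
          have h3 : (C : ℝ) * N ≤ (C : ℝ) * (N * 2 ^ N) := by
            have : (N : ℝ) ≤ N * 2 ^ N := by
              nlinarith [Nat.cast_nonneg (α := ℝ) N]
            exact mul_le_mul_of_nonneg_left this (Nat.cast_nonneg _)
          exact mul_le_mul_of_nonneg_right h3 (by positivity)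
  obtain ⟨B, hB⟩ := exists_nat_ge (K * (n₁ : ℝ) ^ N)
  refine ⟨max (N + 1) d, max B (C + 1), ?_⟩
  intro n F hF
  set G₀ : ℕ → ℝ := fun s => ∑ i ∈ range s, F i with hG₀
  have hdiff : fwdDiff 1 G₀ = F := by
    funext s; simp [fwdDiff, hG₀, Finset.sum_range_succ]
  have hDs : ∀ k, D (k + 1) G₀ = D k F := by
    intro k; rw [D_succ, hdiff]
  have hG00 : G₀ 0 = 0 := by simp [hG₀]
  have hCle : (C : ℝ) ≤ ((max B (C + 1) : ℕ) : ℝ) := by
    have : C ≤ max B (C + 1) := by omega
    exact_mod_cast this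
  have hC1le : (C : ℝ) + 1 ≤ ((max B (C + 1) : ℕ) : ℝ) := by
    have : C + 1 ≤ max B (C + 1) := le_max_right _ _
    exact_mod_cast this
  have hBle : (B : ℝ) ≤ ((max B (C + 1) : ℕ) : ℝ) := by
    exact_mod_cast le_max_left B (C + 1)
  have hm0 : (0 : ℝ) ≤ 1 / ((m : ℝ) + 1) := by positivity
  have hm1 : 1 / ((m : ℝ) + 1) ≤ 1 := by
    rw [div_le_one (by positivity)]
    have : (0 : ℝ) ≤ m := Nat.cast_nonneg m
    linarith
  have hG₀deg : D (N + 1) G₀ = 0 := by rw [hDs]; exact hF.1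
  by_cases hn : n ≤ n₁
  · refine ⟨G₀, ⟨D_eq_zero_of_le (le_max_left _ _) hG₀deg, ?_⟩, ?_⟩
    · intro k
      rcases k with _ | k
      · constructor
        · rw [D_zero, hG00, abs_zero]; positivity
        · rw [D_zero]
          rcases Nat.eq_zero_or_pos n with h0 | h0
          · rw [h0, hG00, abs_zero]; positivity
          · refine (anti n F hF h0).trans (le_trans ?_ hBle)
            refine le_trans ?_ hB
            have : (n : ℝ) ≤ n₁ := by exact_mod_cast hn
            exact mul_le_mul_of_nonneg_left (pow_le_pow_left₀ (Nat.cast_nonneg _) this _) hK0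
      · rw [hDs]
        exact ⟨(hF.2 k).1.trans hCle, (hF.2 k).2.trans hCle⟩
    · intro k
      rw [hDs]
      simp only [sub_self, abs_zero]
      exact ⟨hm0, hm0⟩
  · push Not at hn
    have hn₀n : n₀ ≤ n := by omega
    have hdn : d ≤ n := by omega
    have h1n : 1 ≤ n := by omega
    obtain ⟨P, hP0, hPn, hPd, hPk⟩ := hcor n hdn
    have hnR : (0 : ℝ) < n := by exact_mod_cast h1n
    have hG₀n : |G₀ n| ≤ K * (n : ℝ) ^ N := anti n F hF h1n
    set c : ℝ := -(G₀ n) with hc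
    have habsc : |c| ≤ K * (n : ℝ) ^ N := by rw [hc, abs_neg]; exact hG₀n
    set G : ℕ → ℝ := G₀ + c • P with hG
    have hDG : ∀ k s, D (k + 1) G s = D k F s + c * D (k + 1) P s := by
      intro k s
      rw [hG, D_add_apply, D_smul_apply, hDs]
    have herr : ∀ t : ℝ, |t| ≤ M / (n : ℝ) ^ (N + 1) → |c * t| ≤ 1 / ((m : ℝ) + 1) := by
      intro t ht
      rw [abs_mul]
      calc |c| * |t| ≤ (K * (n : ℝ) ^ N) * (M / (n : ℝ) ^ (N + 1)) :=
            mul_le_mul habsc ht (abs_nonneg _) (by positivity)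
        _ = K * M / n := by
            rw [pow_succ]; field_simp
        _ ≤ 1 / ((m : ℝ) + 1) := by
            rw [div_le_div_iff₀ hnR (by positivity)]
            have : (n₀ : ℝ) ≤ n := by exact_mod_cast hn₀n
            linarith
    refine ⟨G, ⟨?_, ?_⟩, ?_⟩
    · funext s
      rw [hG, D_add_apply, D_smul_apply, D_eq_zero_of_le (le_max_left _ _) hG₀deg,
        D_eq_zero_of_le (le_max_right _ _) hPd]
      simp
    · intro k
      rcases k with _ | k
      · constructor
        · simp only [D_zero, hG, Pi.add_apply, Pi.smul_apply, hG00, hP0, smul_zero, add_zero,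
            abs_zero]
          positivity
        · simp only [D_zero, hG, Pi.add_apply, Pi.smul_apply, hPn, smul_eq_mul, mul_one, hc,
            add_neg_cancel, abs_zero]
          positivity
      · rw [hDG, hDG]
        constructor
        · calc |D k F 0 + c * D (k + 1) P 0| ≤ |D k F 0| + |c * D (k + 1) P 0| := abs_add_le _ _
            _ ≤ C + 1 := add_le_add (hF.2 k).1 ((herr _ (hPk k).1).trans hm1)
            _ ≤ _ := hC1le
        · calc |D k F n + c * D (k + 1) P n| ≤ |D k F n| + |c * D (k + 1) P n| := abs_add_le _ _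
            _ ≤ C + 1 := add_le_add (hF.2 k).2 ((herr _ (hPk k).2).trans hm1)
            _ ≤ _ := hC1le
    · intro k
      rw [hDG, hDG]
      constructor
      · have : D k F 0 - (D k F 0 + c * D (k + 1) P 0) = -(c * D (k + 1) P 0) := by ring
        rw [this, abs_neg]
        exact herr _ (hPk k).1
      · have : D k F n - (D k F n + c * D (k + 1) P n) = -(c * D (k + 1) P n) := by ring
        rw [this, abs_neg]
        exact herr _ (hPk k).2

/-- The tree of functionals. -/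
lemma tree : ∃ N C : List ℕ → ℕ, ∀ n : ℕ, ∃ F : List ℕ → ℕ → ℝ,
    F [] = (fun _ => 1) ∧ (∀ l, Good (N l) (C l) n (F l)) ∧
      ∀ l m k, |D k (F l) 0 - D (k + 1) (F (m :: l)) 0| ≤ 1 / ((m : ℝ) + 1) ∧
        |D k (F l) n - D (k + 1) (F (m :: l)) n| ≤ 1 / ((m : ℝ) + 1) := by
  choose N' C' hstep using step
  choose G hG using hstep
  let NC : List ℕ → ℕ × ℕ := fun l =>
    List.rec (1, 1) (fun m _ p => (N' p.1 p.2 m, C' p.1 p.2 m)) l
  refine ⟨fun l => (NC l).1, fun l => (NC l).2, fun n => ?_⟩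
  have hbase : Good 1 1 n (fun _ => 1) := by
    refine ⟨D_succ_const 0 1, fun k => ?_⟩
    rcases k with _ | k
    · simp [D_zero]
    · rw [D_succ_const]; simp
  let F : (l : List ℕ) → {F : ℕ → ℝ // Good (NC l).1 (NC l).2 n F} := fun l =>
    List.rec (motive := fun l => {F : ℕ → ℝ // Good (NC l).1 (NC l).2 n F})
      ⟨fun _ => 1, hbase⟩
      (fun m l p => ⟨G (NC l).1 (NC l).2 m n p.1 p.2, (hG (NC l).1 (NC l).2 m n p.1 p.2).1⟩) l
  refine ⟨fun l => (F l).1, rfl, fun l => (F l).2, fun l m k => ?_⟩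
  exact (hG (NC l).1 (NC l).2 m n (F l).1 (F l).2).2 k

end Pool.Agent.Lib.MP_550623_an
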