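import Mathlib
import Pool.Agent.Lib.MP_550623_an.Step

/-!
# An operator `T` with dense range and dense generalized kernel such that the orbits of `I + T`
starting in a ball around some vector stay away from `0`

The scalar field is `ℝ` or `ℂ` (`RCLike`).
-/

open Set Function BoundedContinuousFunction

namespace Pool.Agent.Lib.MP_550623_an

section construction

variable (𝕜 : Type) [RCLike 𝕜] (N C : List ℕ → ℕ)

/-- The compact set of functionals. -/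
def Y : Set (List ℕ → ℕ → 𝕜) :=
  {y | (∀ l k, N l ≤ k → y l k = 0) ∧ (∀ l k, ‖y l k‖ ≤ C l) ∧
    ∀ l m k, ‖y l k - y (m :: l) (k + 1)‖ ≤ 1 / ((m : ℝ) + 1)}

/-- The shift on the set of functionals. -/
def A : C(Y 𝕜 N C, Y 𝕜 N C) where
  toFun y := ⟨fun l k => y.1 l (k + 1),
    fun l k h => y.2.1 l (k + 1) (h.trans (Nat.le_succ k)),
    fun l k => y.2.2.1 l (k + 1), fun l m k => y.2.2.2 l m (k + 1)⟩
  continuous_toFun := by
    apply Continuous.subtype_mk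
    refine continuous_pi fun l => continuous_pi fun k => ?_
    exact (continuous_apply (k + 1)).comp ((continuous_apply l).comp continuous_subtype_val)

/-- The coordinate functions. -/
noncomputable def w (l : List ℕ) (k : ℕ) : Y 𝕜 N C →ᵇ 𝕜 :=
  BoundedContinuousFunction.ofNormedAddCommGroup (fun y => y.1 l k)
    ((continuous_apply k).comp ((continuous_apply l).comp continuous_subtype_val))
    (C l) (fun y => y.2.2.1 l k)

lemma w_apply (l : List ℕ) (k : ℕ) (y : Y 𝕜 N C) : w 𝕜 N C l k y = y.1 l k := rfl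

/-- Composition with the shift. -/
noncomputable def T₀ : (Y 𝕜 N C →ᵇ 𝕜) →L[𝕜] (Y 𝕜 N C →ᵇ 𝕜) :=
  LinearMap.mkContinuous
    { toFun := fun f => f.compContinuous (A 𝕜 N C)
      map_add' := fun f g => by ext y; rfl
      map_smul' := fun c f => by ext y; rfl } 1 (fun f => by
        rw [one_mul]
        refine (BoundedContinuousFunction.norm_le (norm_nonneg _)).mpr fun y => ?_
        exact f.norm_coe_le_norm (A 𝕜 N C y))

lemma T₀_apply (f : Y 𝕜 N C →ᵇ 𝕜) (y : Y 𝕜 N C) : T₀ 𝕜 N C f y = f (A 𝕜 N C y) := rfl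

lemma T₀_w (l : List ℕ) (k : ℕ) : T₀ 𝕜 N C (w 𝕜 N C l k) = w 𝕜 N C l (k + 1) := by
  ext y; rfl

/-- The (dense) span of the coordinate functions. -/
noncomputable def X₀ : Submodule 𝕜 (Y 𝕜 N C →ᵇ 𝕜) :=
  Submodule.span 𝕜 (Set.range fun p : List ℕ × ℕ => w 𝕜 N C p.1 p.2)

/-- The Banach space. -/
noncomputable def X : Submodule 𝕜 (Y 𝕜 N C →ᵇ 𝕜) := (X₀ 𝕜 N C).topologicalClosure

lemma w_mem₀ (l : List ℕ) (k : ℕ) : w 𝕜 N C l k ∈ X₀ 𝕜 N C :=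
  Submodule.subset_span ⟨(l, k), rfl⟩

lemma w_mem (l : List ℕ) (k : ℕ) : w 𝕜 N C l k ∈ X 𝕜 N C :=
  Submodule.le_topologicalClosure _ (w_mem₀ 𝕜 N C l k)

lemma T₀_mem₀ {f : Y 𝕜 N C →ᵇ 𝕜} (hf : f ∈ X₀ 𝕜 N C) : T₀ 𝕜 N C f ∈ X₀ 𝕜 N C := by
  have : X₀ 𝕜 N C ≤ (X₀ 𝕜 N C).comap (T₀ 𝕜 N C : (Y 𝕜 N C →ᵇ 𝕜) →ₗ[𝕜] (Y 𝕜 N C →ᵇ 𝕜)) := by
    refine Submodule.span_le.mpr ?_
    rintro _ ⟨p, rfl⟩
    change T₀ 𝕜 N C (w 𝕜 N C p.1 p.2) ∈ X₀ 𝕜 N C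
    rw [T₀_w]
    exact w_mem₀ 𝕜 N C _ _
  exact this hf

lemma T₀_mem {f : Y 𝕜 N C →ᵇ 𝕜} (hf : f ∈ X 𝕜 N C) : T₀ 𝕜 N C f ∈ X 𝕜 N C := by
  have h1 : MapsTo (T₀ 𝕜 N C) (X₀ 𝕜 N C : Set (Y 𝕜 N C →ᵇ 𝕜)) (X₀ 𝕜 N C) :=
    fun f hf => T₀_mem₀ 𝕜 N C hf
  exact h1.closure (T₀ 𝕜 N C).continuous hf

/-- The operator. -/
noncomputable def T : X 𝕜 N C →L[𝕜] X 𝕜 N C :=
  ((T₀ 𝕜 N C).comp (X 𝕜 N C).subtypeL).codRestrict (X 𝕜 N C) (fun f => T₀_mem 𝕜 N C f.2)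

/-- The generators as elements of the Banach space. -/
noncomputable def v (l : List ℕ) (k : ℕ) : X 𝕜 N C := ⟨w 𝕜 N C l k, w_mem 𝕜 N C l k⟩

lemma T_v (l : List ℕ) (k : ℕ) : T 𝕜 N C (v 𝕜 N C l k) = v 𝕜 N C l (k + 1) := by
  apply Subtype.ext
  exact T₀_w 𝕜 N C l k

lemma T_pow_v (l : List ℕ) (k n : ℕ) : ((T 𝕜 N C) ^ n) (v 𝕜 N C l k) = v 𝕜 N C l (k + n) := by
  induction n generalizing k with
  | zero => simp
  | succ n ih =>
    rw [pow_succ, mul_apply_eq_comp, T_v, ih]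
    congr 1
    omega

lemma v_eq_zero (l : List ℕ) (k : ℕ) (h : N l ≤ k) : v 𝕜 N C l k = 0 := by
  apply Subtype.ext
  ext y
  exact y.2.1 l k h

/-- A closed subspace containing all generators is everything. -/
lemma eq_top_of_v_mem (V : Submodule 𝕜 (X 𝕜 N C)) (hV : IsClosed (V : Set (X 𝕜 N C)))
    (h : ∀ l k, v 𝕜 N C l k ∈ V) (f : X 𝕜 N C) : f ∈ V := by
  have h1 : ∀ g (hg : g ∈ X₀ 𝕜 N C), ∃ hg' : g ∈ X 𝕜 N C, (⟨g, hg'⟩ : X 𝕜 N C) ∈ V := by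
    intro g hg
    have hle : X₀ 𝕜 N C ≤ V.map (X 𝕜 N C).subtype := by
      refine Submodule.span_le.mpr ?_
      rintro _ ⟨p, rfl⟩
      exact ⟨v 𝕜 N C p.1 p.2, h _ _, rfl⟩
    obtain ⟨u, hu, rfl⟩ := hle hg
    exact ⟨u.2, hu⟩
  have h2 : f ∈ closure (V : Set (X 𝕜 N C)) := by
    rw [Metric.mem_closure_iff]
    intro ε hε
    have h3 : (f : Y 𝕜 N C →ᵇ 𝕜) ∈ closure (X₀ 𝕜 N C : Set (Y 𝕜 N C →ᵇ 𝕜)) := f.2
    obtain ⟨g, hg, hgd⟩ := Metric.mem_closure_iff.mp h3 ε hε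
    obtain ⟨hg', hgV⟩ := h1 g hg
    exact ⟨⟨g, hg'⟩, hgV, hgd⟩
  rwa [hV.closure_eq] at h2

instance : CompleteSpace (X 𝕜 N C) := by
  unfold X; infer_instance

lemma separable : TopologicalSpace.SeparableSpace (X 𝕜 N C) := by
  have h1 : TopologicalSpace.IsSeparable
      (Set.range fun p : List ℕ × ℕ => w 𝕜 N C p.1 p.2) :=
    (Set.countable_range _).isSeparable
  have h2 : TopologicalSpace.IsSeparable (X₀ 𝕜 N C : Set (Y 𝕜 N C →ᵇ 𝕜)) := h1.span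
  have h3 : TopologicalSpace.IsSeparable (X 𝕜 N C : Set (Y 𝕜 N C →ᵇ 𝕜)) := h2.closure
  exact h3.separableSpace

lemma denseRange : DenseRange (T 𝕜 N C) := by
  intro f
  have : f ∈ (LinearMap.range (T 𝕜 N C : X 𝕜 N C →ₗ[𝕜] X 𝕜 N C)).topologicalClosure := by
    refine eq_top_of_v_mem 𝕜 N C _ (Submodule.isClosed_topologicalClosure _) ?_ f
    intro l k
    change v 𝕜 N C l k ∈ closure _
    rw [Metric.mem_closure_iff]
    intro ε hε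
    obtain ⟨m, hm⟩ := exists_nat_one_div_lt hε
    refine ⟨v 𝕜 N C (m :: l) (k + 1), ⟨v 𝕜 N C (m :: l) k, T_v 𝕜 N C _ _⟩, ?_⟩
    refine lt_of_le_of_lt ?_ hm
    rw [dist_eq_norm]
    change ‖w 𝕜 N C l k - w 𝕜 N C (m :: l) (k + 1)‖ ≤ _
    refine (BoundedContinuousFunction.norm_le (by positivity)).mpr fun y => ?_
    exact y.2.2.2 l m k
  exact this

lemma dense_genKernel : Dense (⋃ n : ℕ, {x : X 𝕜 N C | ((T 𝕜 N C) ^ n) x = 0}) := by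
  -- the union is a subspace
  let K : Submodule 𝕜 (X 𝕜 N C) :=
    { carrier := ⋃ n : ℕ, {x : X 𝕜 N C | ((T 𝕜 N C) ^ n) x = 0}
      zero_mem' := by
        refine mem_iUnion.mpr ⟨0, ?_⟩
        simp
      add_mem' := by
        intro a b ha hb
        obtain ⟨m, hm⟩ := mem_iUnion.mp ha
        obtain ⟨n, hn⟩ := mem_iUnion.mp hb
        simp only [mem_ofPred_eq] at hm hn
        refine mem_iUnion.mpr ⟨m + n, ?_⟩
        simp only [mem_ofPred_eq, map_add]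
        rw [pow_add, mul_apply_eq_comp, mul_apply_eq_comp, hn, map_zero,
          add_zero, ← mul_apply_eq_comp, ← pow_add, add_comm, pow_add,
          mul_apply_eq_comp, hm, map_zero]
      smul_mem' := by
        intro c a ha
        obtain ⟨m, hm⟩ := mem_iUnion.mp ha
        simp only [mem_ofPred_eq] at hm
        refine mem_iUnion.mpr ⟨m, ?_⟩
        simp only [mem_ofPred_eq, map_smul, hm, smul_zero] }
  intro f
  have : f ∈ K.topologicalClosure := by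
    refine eq_top_of_v_mem 𝕜 N C _ (Submodule.isClosed_topologicalClosure _) ?_ f
    intro l k
    refine Submodule.le_topologicalClosure _ ?_
    refine mem_iUnion.mpr ⟨N l, ?_⟩
    simp only [mem_ofPred_eq]
    rw [T_pow_v]
    exact v_eq_zero 𝕜 N C l _ (Nat.le_add_left _ _)
  exact this

/-- The point of `Y` given by differences of `F l` at `s`. -/
noncomputable def pt (F : List ℕ → ℕ → ℝ) (s : ℕ)
    (h1 : ∀ l k, N l ≤ k → D k (F l) s = 0) (h2 : ∀ l k, |D k (F l) s| ≤ C l)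
    (h3 : ∀ l m k, |D k (F l) s - D (k + 1) (F (m :: l)) s| ≤ 1 / ((m : ℝ) + 1)) : Y 𝕜 N C :=
  ⟨fun l k => ((D k (F l) s : ℝ) : 𝕜), fun l k h => by simp [h1 l k h],
    fun l k => by simpa [RCLike.norm_ofReal] using h2 l k,
    fun l m k => by
      rw [← RCLike.ofReal_sub, RCLike.norm_ofReal]
      exact h3 l m k⟩

end construction

/-- The main estimate: powers of `1 + T` translate. -/
lemma pow_apply_pt (𝕜 : Type) [RCLike 𝕜] (N C : List ℕ → ℕ) (F : List ℕ → ℕ → ℝ) (n : ℕ)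
    (y z : Y 𝕜 N C) (hy : ∀ l k, y.1 l k = ((D k (F l) 0 : ℝ) : 𝕜))
    (hz : ∀ l k, z.1 l k = ((D k (F l) n : ℝ) : 𝕜)) (f : X 𝕜 N C) :
    ((((1 + T 𝕜 N C) ^ n) f : X 𝕜 N C) : Y 𝕜 N C →ᵇ 𝕜) y = (f : Y 𝕜 N C →ᵇ 𝕜) z := by
  -- on generators
  have hgen : ∀ (s : ℕ) (l : List ℕ) (k : ℕ),
      ((((1 + T 𝕜 N C) ^ s) (v 𝕜 N C l k) : X 𝕜 N C) : Y 𝕜 N C →ᵇ 𝕜) y
        = ((D k (F l) s : ℝ) : 𝕜) := by
    intro s
    induction s with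
    | zero =>
      intro l k
      rw [pow_zero, one_apply_eq_self]
      exact hy l k
    | succ s ih =>
      intro l k
      rw [pow_succ, mul_apply_eq_comp, _root_.add_apply,
        one_apply_eq_self, T_v, map_add, Submodule.coe_add,
        BoundedContinuousFunction.add_apply, ih, ih, ← RCLike.ofReal_add, D_succ']
      congr 1
      ring
  let e : Y 𝕜 N C → (X 𝕜 N C →L[𝕜] 𝕜) := fun y =>
    (BoundedContinuousFunction.evalCLM 𝕜 y).comp (X 𝕜 N C).subtypeL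
  let L : X 𝕜 N C →L[𝕜] 𝕜 := (e y).comp ((1 + T 𝕜 N C) ^ n) - e z
  have hmem : f ∈ LinearMap.ker (L : X 𝕜 N C →ₗ[𝕜] 𝕜) := by
    refine eq_top_of_v_mem 𝕜 N C _ L.isClosed_ker ?_ f
    intro l k
    have h1 : L (v 𝕜 N C l k) =
        ((((1 + T 𝕜 N C) ^ n) (v 𝕜 N C l k) : X 𝕜 N C) : Y 𝕜 N C →ᵇ 𝕜) y
          - (v 𝕜 N C l k : Y 𝕜 N C →ᵇ 𝕜) z := rfl
    have h2 : ((v 𝕜 N C l k : X 𝕜 N C) : Y 𝕜 N C →ᵇ 𝕜) z = z.1 l k := rfl
    change L (v 𝕜 N C l k) = 0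
    rw [h1, h2, hgen, hz, sub_self]
  have h3 : L f = 0 := hmem
  have h4 : L f = ((((1 + T 𝕜 N C) ^ n) f : X 𝕜 N C) : Y 𝕜 N C →ᵇ 𝕜) y
      - (f : Y 𝕜 N C →ᵇ 𝕜) z := rfl
  rw [h4] at h3
  exact sub_eq_zero.mp h3

/-- There are a separable Banach space `X ≠ 0`, a bounded operator `T` on `X` with dense range and
dense generalized kernel, and a vector `w` such that all orbits of `1 + T` starting in the ball
`B(w, 1/2)` stay outside of the ball `B(0, 1/2)`. -/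
theorem exists_operator (𝕜 : Type) [RCLike 𝕜] :
    ∃ (X : Type) (_ : NormedAddCommGroup X) (_ : NormedSpace 𝕜 X) (_ : CompleteSpace X)
      (_ : TopologicalSpace.SeparableSpace X) (_ : Nontrivial X) (T : X →L[𝕜] X),
      DenseRange T ∧ Dense (⋃ n : ℕ, {x : X | (T ^ n) x = 0}) ∧
        ∃ w : X, ∀ f : X, ‖f - w‖ < 1 / 2 → ∀ n : ℕ, 1 / 2 < ‖((1 + T) ^ n) f‖ := by
  obtain ⟨N, C, hNC⟩ := tree
  -- functionals
  have hpts : ∀ n : ℕ, ∃ y z : Y 𝕜 N C, (z.1 [] 0 = 1) ∧ ∀ f : X 𝕜 N C,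
      ((((1 + T 𝕜 N C) ^ n) f : X 𝕜 N C) : Y 𝕜 N C →ᵇ 𝕜) y = (f : Y 𝕜 N C →ᵇ 𝕜) z := by
    intro n
    obtain ⟨F, hF1, hF2, hF3⟩ := hNC n
    refine ⟨pt 𝕜 N C F 0 (fun l k h => by rw [D_eq_zero_of_le h (hF2 l).1]; rfl)
        (fun l k => ((hF2 l).2 k).1) (fun l m k => (hF3 l m k).1),
      pt 𝕜 N C F n (fun l k h => by rw [D_eq_zero_of_le h (hF2 l).1]; rfl)
        (fun l k => ((hF2 l).2 k).2) (fun l m k => (hF3 l m k).2), ?_, ?_⟩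
    · change ((D 0 (F []) n : ℝ) : 𝕜) = 1
      rw [hF1, D_zero]
      simp
    · intro f
      exact pow_apply_pt 𝕜 N C F n _ _ (fun _ _ => rfl) (fun _ _ => rfl) f
  -- the key lower bound
  have hkey : ∀ f : X 𝕜 N C, ‖f - v 𝕜 N C [] 0‖ < 1 / 2 →
      ∀ n : ℕ, 1 / 2 < ‖((1 + T 𝕜 N C) ^ n) f‖ := by
    intro f hf n
    obtain ⟨y, z, hz, hyz⟩ := hpts n
    have h1 : ‖((((1 + T 𝕜 N C) ^ n) f : X 𝕜 N C) : Y 𝕜 N C →ᵇ 𝕜) y‖
        ≤ ‖((1 + T 𝕜 N C) ^ n) f‖ :=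
      BoundedContinuousFunction.norm_coe_le_norm _ y
    rw [hyz] at h1
    have h2 : ‖(f : Y 𝕜 N C →ᵇ 𝕜) z - z.1 [] 0‖ ≤ ‖f - v 𝕜 N C [] 0‖ :=
      BoundedContinuousFunction.norm_coe_le_norm
        ((f - v 𝕜 N C [] 0 : X 𝕜 N C) : Y 𝕜 N C →ᵇ 𝕜) z
    have h3 : ‖z.1 [] 0‖ = 1 := by rw [hz]; simp
    have h4 : ‖z.1 [] 0‖ ≤ ‖(f : Y 𝕜 N C →ᵇ 𝕜) z‖ + ‖(f : Y 𝕜 N C →ᵇ 𝕜) z - z.1 [] 0‖ := by
      calc ‖z.1 [] 0‖ = ‖(f : Y 𝕜 N C →ᵇ 𝕜) z - ((f : Y 𝕜 N C →ᵇ 𝕜) z - z.1 [] 0)‖ := by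
            congr 1; ring
        _ ≤ _ := norm_sub_le _ _
    linarith
  have hv : v 𝕜 N C [] 0 ≠ 0 := by
    intro h0
    obtain ⟨y, z, hz, -⟩ := hpts 0
    have : (v 𝕜 N C [] 0 : Y 𝕜 N C →ᵇ 𝕜) z = z.1 [] 0 := rfl
    rw [h0, hz] at this
    simp at this
  have hsep := separable 𝕜 N C
  have hnt : Nontrivial (X 𝕜 N C) := ⟨⟨_, _, hv⟩⟩
  exact ⟨X 𝕜 N C, inferInstance, inferInstance, inferInstance, hsep, hnt, T 𝕜 N C,
    denseRange 𝕜 N C, dense_genKernel 𝕜 N C, v 𝕜 N C [] 0, hkey⟩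

end Pool.Agent.Lib.MP_550623_an
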